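import Mathlib

set_option autoImplicit false
set_option linter.style.haveILetI false

namespace Pool.Agent.Results.MP_e8676d_al.Degrees

open Filter Topology

/-- the ball of radius `n` about `ξ` in the Schreier graph of the orbit of `ξ` -/
def ball {Ω : Type} (S : Finset (Equiv.Perm Ω)) (ξ : Ω) (n : ℕ) : Set Ω :=
  {η | ∃ l : List (Equiv.Perm Ω), l.length ≤ n ∧ (∀ s ∈ l, s ∈ S ∨ s⁻¹ ∈ S) ∧ l.prod ξ = η}

/-- the infinite word `x w` -/
def cons {X : Type} (x : X) (w : ℕ → X) : ℕ → X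
  | 0 => x
  | n + 1 => w n

section general
variable {Ω : Type} (S : Finset (Equiv.Perm Ω)) (ξ : Ω)

lemma ball_mono {m n : ℕ} (h : m ≤ n) : ball S ξ m ⊆ ball S ξ n :=
  fun _ ⟨l, h1, h2⟩ => ⟨l, h1.trans h, h2⟩

lemma ball_zero : ball S ξ 0 = {ξ} := by
  ext η
  constructor
  · rintro ⟨l, h, -, rfl⟩
    rw [List.length_eq_zero_iff.1 (Nat.le_zero.1 h)]
    rfl
  · rintro rfl
    exact ⟨[], le_rfl, by simp, rfl⟩

lemma ball_step {s : Equiv.Perm Ω} (hs : s ∈ S ∨ s⁻¹ ∈ S) {n : ℕ} {η : Ω} (h : η ∈ ball S ξ n) :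
    s η ∈ ball S ξ (n + 1) := by
  obtain ⟨l, h1, h2, rfl⟩ := h
  exact ⟨s :: l, by simpa using h1, by simpa using ⟨hs, h2⟩, by simp⟩

lemma ball_ind {P : ℕ → Ω → Prop} (h0 : P 0 ξ) (h1 : ∀ n η, P n η → P (n + 1) η)
    (h2 : ∀ n η s, (s ∈ S ∨ s⁻¹ ∈ S) → P n η → P (n + 1) (s η)) (n : ℕ) :
    ∀ η ∈ ball S ξ n, P n η := by
  induction n with
  | zero => rw [ball_zero]; rintro η rfl; exact h0
  | succ n ih =>
    rintro η ⟨_ | ⟨s, l⟩, k1, k2, rfl⟩
    · exact h1 _ _ (ih _ ⟨[], Nat.zero_le _, k2, rfl⟩)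
    · exact h2 _ _ s (k2 s (by simp))
        (ih _ ⟨l, by simpa using k1, fun t ht => k2 t (by simp [ht]), rfl⟩)

lemma ball_trans {m n : ℕ} {η ζ : Ω} (h : η ∈ ball S ξ m) (h' : ζ ∈ ball S η n) :
    ζ ∈ ball S ξ (m + n) :=
  ball_ind S η (P := fun n ζ => ζ ∈ ball S ξ (m + n)) h
    (fun _ _ h => ball_mono S ξ (Nat.le_succ _) h) (fun _ _ _ hs h => ball_step S ξ hs h) n ζ h'

lemma ball_fin (n : ℕ) : (ball S ξ n).Finite := by
  induction n with
  | zero => rw [ball_zero]; exact Set.finite_singleton _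
  | succ n ih =>
    have hT : {s : Equiv.Perm Ω | s ∈ S ∨ s⁻¹ ∈ S}.Finite :=
      (Finset.finite_toSet _).union (Finset.finite_toSet _).inv
    refine (ih.union (hT.image2 (fun s η => s η) ih)).subset ?_
    rintro η ⟨_ | ⟨s, l⟩, k1, k2, rfl⟩
    · exact Or.inl ⟨[], Nat.zero_le _, k2, rfl⟩
    · exact Or.inr ⟨s, k2 s (by simp), _,
        ⟨l, by simpa using k1, fun t ht => k2 t (by simp [ht]), rfl⟩, by simp⟩

lemma ball_card (h : {η | ∃ g ∈ Subgroup.closure (S : Set (Equiv.Perm Ω)), g ξ = η}.Infinite)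
    (n : ℕ) : n + 1 ≤ (ball S ξ n).ncard := by
  induction n with
  | zero => simp [ball_zero]
  | succ n ih =>
    refine (Nat.succ_le_succ ih).trans (Set.ncard_lt_ncard
      ⟨ball_mono S ξ (Nat.le_succ n), fun hc => h ((ball_fin S ξ n).subset ?_)⟩ (ball_fin S ξ _))
    rintro _ ⟨g, hg, rfl⟩
    have : ∀ η ∈ ball S ξ n, g η ∈ ball S ξ n := by
      induction hg using Subgroup.closure_induction'' with
      | one => exact fun η h => h
      | mem g hg => exact fun η h => hc (ball_step S ξ (Or.inl hg) h)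
      | inv_mem g hg => exact fun η h => hc (ball_step S ξ (Or.inr (by simpa using hg)) h)
      | mul g h _ _ hg hh => exact fun η k => hg _ (hh _ k)
    exact this ξ ⟨[], Nat.zero_le _, by simp, rfl⟩

end general

section automaton
variable {p q : ℕ}

abbrev X (p q : ℕ) := ZMod p ⊕ ZMod q

def rot (k : ℤ) : X p q → X p q := Sum.map (· + k) (· + k)

lemma rot_add (k l : ℤ) (x : X p q) : rot k (rot l x) = rot (l + k) x := by
  cases x <;> simp [rot, add_assoc]

lemma rot_zero (x : X p q) : rot 0 x = x := by cases x <;> simp [rot]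

lemma rot_side (k : ℤ) (x : X p q) : (rot k x).isLeft = x.isLeft := by cases x <;> rfl

def z (x : X p q) : Prop := x = .inl 0 ∨ x = .inr 0
def o (x : X p q) : Prop := x = .inl 1 ∨ x = .inr 1

def gate (ξ : ℕ → X p q) (n : ℕ) : Prop := (∀ i < n, z (ξ i)) ∧ o (ξ n)

def aa (k : ℤ) (ξ : ℕ → X p q) : ℕ → X p q
  | 0 => rot k (ξ 0)
  | n + 1 => ξ (n + 1)

open Classical in
noncomputable def bb (k : ℤ) (ξ : ℕ → X p q) : ℕ → X p q
  | 0 => ξ 0
  | n + 1 => if gate ξ n then rot k (ξ (n + 1)) else ξ (n + 1)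

variable [Fact (1 < p)] [Fact (1 < q)]

lemma zo {x : X p q} (h : z x) : ¬ o x := by
  rcases h with rfl | rfl <;> simp [o]

lemma bb_eq (k : ℤ) (ξ : ℕ → X p q) (n : ℕ) (h : ∀ i < n, z (ξ i)) : bb k ξ n = ξ n := by
  cases n with
  | zero => rfl
  | succ n => exact if_neg fun hg => zo (h n (Nat.lt_succ_self n)) hg.2

omit [Fact (1 < p)] [Fact (1 < q)] in
lemma bb_pos (k : ℤ) {ξ : ℕ → X p q} {n : ℕ} (h : gate ξ n) :
    bb k ξ (n + 1) = rot k (ξ (n + 1)) := if_pos h

omit [Fact (1 < p)] [Fact (1 < q)] in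
lemma bb_neg (k : ℤ) {ξ : ℕ → X p q} {n : ℕ} (h : ¬ gate ξ n) : bb k ξ (n + 1) = ξ (n + 1) :=
  if_neg h

lemma bb_z (k : ℤ) (ξ : ℕ → X p q) (n : ℕ) :
    (∀ i < n, z (bb k ξ i)) ↔ ∀ i < n, z (ξ i) := by
  induction n with
  | zero => simp
  | succ n ih =>
    simp only [Nat.forall_lt_succ_right, ih]
    exact and_congr_right fun h => by rw [bb_eq k ξ n h]

lemma bb_gate (k : ℤ) (ξ : ℕ → X p q) (n : ℕ) : gate (bb k ξ) n ↔ gate ξ n := by
  simp only [gate, bb_z]
  exact and_congr_right fun h => by rw [bb_eq k ξ n h]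

lemma bb_add (k l : ℤ) (ξ : ℕ → X p q) : bb k (bb l ξ) = bb (l + k) ξ := by
  funext n
  cases n with
  | zero => rfl
  | succ n =>
    by_cases h : gate ξ n
    · rw [bb_pos _ ((bb_gate _ _ _).2 h), bb_pos _ h, bb_pos _ h, rot_add]
    · rw [bb_neg _ ((bb_gate _ _ _).not.2 h), bb_neg _ h, bb_neg _ h]

omit [Fact (1 < p)] [Fact (1 < q)] in
lemma bb_zero (ξ : ℕ → X p q) : bb 0 ξ = ξ := by
  funext n
  cases n <;> simp [bb, rot_zero]

omit [Fact (1 < p)] [Fact (1 < q)] in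
lemma aa_add (k l : ℤ) (ξ : ℕ → X p q) : aa k (aa l ξ) = aa (l + k) ξ := by
  funext n
  cases n <;> simp [aa, rot_add]

omit [Fact (1 < p)] [Fact (1 < q)] in
lemma aa_zero (ξ : ℕ → X p q) : aa 0 ξ = ξ := by
  funext n
  cases n <;> simp [aa, rot_zero]

def aP : Equiv.Perm (ℕ → X p q) :=
  ⟨aa 1, aa (-1), fun w => by rw [aa_add, add_neg_cancel, aa_zero],
    fun w => by rw [aa_add, neg_add_cancel, aa_zero]⟩

noncomputable def bP : Equiv.Perm (ℕ → X p q) :=
  ⟨bb 1, bb (-1), fun w => by rw [bb_add, add_neg_cancel, bb_zero],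
    fun w => by rw [bb_add, neg_add_cancel, bb_zero]⟩

open Classical in
noncomputable def SS : Finset (Equiv.Perm (ℕ → X p q)) := {aP, bP}

lemma SS_cases {s : Equiv.Perm (ℕ → X p q)} (h : s ∈ SS ∨ s⁻¹ ∈ SS) :
    ∃ k, (∀ w, s w = aa k w) ∨ ∀ w, s w = bb k w := by
  simp only [SS, Finset.mem_insert, Finset.mem_singleton, inv_eq_iff_eq_inv] at h
  rcases h with (rfl | rfl) | rfl | rfl
  exacts [⟨1, .inl fun _ => rfl⟩, ⟨1, .inr fun _ => rfl⟩, ⟨-1, .inl fun _ => rfl⟩,
    ⟨-1, .inr fun _ => rfl⟩]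

lemma bb_cons (k : ℤ) (x : X p q) (w : ℕ → X p q) :
    (z x → bb k (cons x w) = cons x (bb k w)) ∧
    (o x → bb k (cons x w) = cons x (aa k w)) ∧
    (¬ z x → ¬ o x → bb k (cons x w) = cons x w) := by
  have g0 : gate (cons x w) 0 ↔ o x := by simp [gate, cons]
  have g1 : ∀ n, gate (cons x w) (n + 1) ↔ z x ∧ gate w n := fun n => by
    simp only [gate, Nat.forall_lt_succ_left, cons, and_assoc]
  refine ⟨fun h => ?_, fun h => ?_, fun h h' => ?_⟩ <;> funext n <;> rcases n with _ | _ | n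
  · rfl
  · exact if_neg (g0.not.2 (zo h))
  · by_cases hg : gate w n
    · exact (bb_pos k ((g1 n).2 ⟨h, hg⟩)).trans (bb_pos k hg).symm
    · exact (bb_neg k fun h' => hg ((g1 n).1 h').2).trans (bb_neg k hg).symm
  · rfl
  · exact if_pos (g0.2 h)
  · exact if_neg fun hg => zo ((g1 _).1 hg).1 h
  · rfl
  · exact if_neg (g0.not.2 h')
  · exact if_neg fun hg => h ((g1 _).1 hg).1

lemma selfsim : ∀ g ∈ Subgroup.closure (SS (p := p) (q := q) : Set (Equiv.Perm (ℕ → X p q))), ∀ x,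
    ∃ h ∈ Subgroup.closure (SS (p := p) (q := q) : Set (Equiv.Perm (ℕ → X p q))), ∃ y, ∀ w,
      g (cons x w) = cons y (h w) := by
  intro g hg
  have ha : aP ∈ Subgroup.closure (SS (p := p) (q := q) : Set (Equiv.Perm (ℕ → X p q))) :=
    Subgroup.subset_closure (by simp [SS])
  have hb : bP ∈ Subgroup.closure (SS (p := p) (q := q) : Set (Equiv.Perm (ℕ → X p q))) :=
    Subgroup.subset_closure (by simp [SS])
  have h1 : ∀ k x (w : ℕ → X p q), aa k (cons x w) = cons (rot k x) w :=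
    fun k x w => by funext n; cases n <;> rfl
  induction hg using Subgroup.closure_induction'' with
  | one => exact fun x => ⟨1, Subgroup.one_mem _, x, fun _ => rfl⟩
  | mem g hg =>
    intro x
    simp only [SS, Finset.coe_insert, Finset.coe_singleton] at hg
    rcases hg with rfl | rfl
    · exact ⟨1, Subgroup.one_mem _, _, h1 1 x⟩
    · by_cases hz : z x
      · exact ⟨_, hb, x, fun w => (bb_cons 1 x w).1 hz⟩
      by_cases ho : o x
      · exact ⟨_, ha, x, fun w => (bb_cons 1 x w).2.1 ho⟩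
      · exact ⟨1, Subgroup.one_mem _, x, fun w => (bb_cons 1 x w).2.2 hz ho⟩
  | inv_mem g hg =>
    intro x
    simp only [SS, Finset.coe_insert, Finset.coe_singleton] at hg
    rcases hg with rfl | rfl
    · exact ⟨1, Subgroup.one_mem _, _, h1 (-1) x⟩
    · by_cases hz : z x
      · exact ⟨_, Subgroup.inv_mem _ hb, x, fun w => (bb_cons (-1) x w).1 hz⟩
      by_cases ho : o x
      · exact ⟨_, Subgroup.inv_mem _ ha, x, fun w => (bb_cons (-1) x w).2.1 ho⟩
      · exact ⟨1, Subgroup.one_mem _, x, fun w => (bb_cons (-1) x w).2.2 hz ho⟩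
  | mul g g' _ _ hg hg' =>
    intro x
    obtain ⟨h', k1, y, k2⟩ := hg' x
    obtain ⟨h, k3, y', k4⟩ := hg y
    exact ⟨h * h', Subgroup.mul_mem _ k3 k1, y', fun w => by
      rw [Equiv.Perm.mul_apply, k2, k4]; rfl⟩

open Classical in
noncomputable def ph (ξ : ℕ → X p q) : ℕ → ℤ
  | 0 => if o (ξ 0) then 1 else 0
  | n + 1 => if o (ξ (n + 1)) then 2 * 2 ^ n - ph ξ n else ph ξ n

lemma ph_z (ξ : ℕ → X p q) (n : ℕ) (h : ∀ i ≤ n, z (ξ i)) : ph ξ n = 0 := by
  induction n with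
  | zero => exact if_neg (zo (h 0 le_rfl))
  | succ n ih => rw [ph, if_neg (zo (h _ le_rfl)), ih fun i hi => h i (by omega)]

lemma ph_gate (ξ : ℕ → X p q) (n : ℕ) (h : gate ξ n) : ph ξ n = 2 ^ n := by
  cases n with
  | zero => exact if_pos h.2
  | succ n => rw [ph, if_pos h.2, ph_z ξ n fun i hi => h.1 i (by omega)]; ring

omit [Fact (1 < p)] [Fact (1 < q)] in
lemma ph_aa (k : ℤ) (ξ : ℕ → X p q) (n : ℕ) : |ph (aa k ξ) n - ph ξ n| ≤ 1 := by
  induction n with
  | zero => simp only [ph]; split_ifs <;> simp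
  | succ n ih =>
    by_cases h : o (ξ (n + 1))
    · rwa [ph, ph, if_pos h, if_pos (show o (aa k ξ (n + 1)) from h), sub_sub_sub_cancel_left,
        abs_sub_comm]
    · rwa [ph, ph, if_neg h, if_neg (show ¬ o (aa k ξ (n + 1)) from h)]

lemma ph_bb (k : ℤ) (ξ : ℕ → X p q) (n : ℕ) : ph (bb k ξ) n = ph ξ n := by
  induction n with
  | zero => rfl
  | succ n ih =>
    by_cases h : gate ξ n
    · simp only [ph, ih, ph_gate ξ n h]
      split_ifs <;> ring
    · rw [ph, ph, ih, bb_neg k h]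

/-- words of the same type as `ξ` that agree with `ξ` from position `n` on -/
def W (ξ : ℕ → X p q) (n : ℕ) : Set (ℕ → X p q) :=
  {η | (∀ i, (η i).isLeft = (ξ i).isLeft) ∧ ∀ i, n ≤ i → η i = ξ i}

lemma upper (ξ : ℕ → X p q) (hξ : ∀ i, z (ξ i)) (n : ℕ) :
    ball SS ξ (2 ^ n) ⊆ W ξ (n + 1) := fun η hη => by
  refine (ball_ind SS ξ (P := fun r η => (∀ m, ph η m ≤ r) ∧ (r ≤ 2 ^ n → η ∈ W ξ (n + 1)))
    ⟨fun m => (ph_z ξ m fun i _ => hξ i).le, fun _ => ⟨fun _ => rfl, fun _ _ => rfl⟩⟩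
    (fun r η h => ⟨fun m => (h.1 m).trans (by simp), fun hr => h.2 (by omega)⟩)
    (fun r η s hs h => ?_) _ η hη).2 le_rfl
  obtain ⟨k, hk | hk⟩ := SS_cases hs <;> rw [hk]
  · refine ⟨fun m => ?_, fun hr => ⟨fun i => ?_, fun i hi => ?_⟩⟩
    · have := (abs_le.1 (ph_aa k η m)).2
      have := h.1 m
      push_cast
      omega
    · rw [← (h.2 (by omega)).1 i]
      cases i
      · exact rot_side _ _
      · rfl
    · obtain ⟨j, rfl⟩ : ∃ j, i = j + 1 := ⟨i - 1, by omega⟩
      exact (h.2 (by omega)).2 _ hi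
  · refine ⟨fun m => (ph_bb k η m).trans_le ((h.1 m).trans (by simp)),
      fun hr => ⟨fun i => ?_, fun i hi => ?_⟩⟩
    · rw [← (h.2 (by omega)).1 i]
      cases i
      · rfl
      · simp only [bb]
        split_ifs
        · exact rot_side _ _
        · rfl
    · obtain ⟨j, rfl⟩ : ∃ j, i = j + 1 := ⟨i - 1, by omega⟩
      rw [← (h.2 (by omega)).2 _ hi]
      refine if_neg fun hg => ?_
      have h1 := h.1 j
      rw [ph_gate η j hg] at h1
      have h2 : 2 ^ n ≤ 2 ^ j := Nat.pow_le_pow_right two_pos (by omega)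
      have h3 : 2 ^ j ≤ r := by exact_mod_cast h1
      omega

lemma rot_to (hpq : p ≤ q) (x y : X p q) (h : y.isLeft = x.isLeft) :
    ∃ k : ℕ, k ≤ q ∧ rot k x = y := by
  rcases x with x | x <;> rcases y with y | y <;> simp only [Sum.isLeft] at h
  · exact ⟨(y - x).val, (ZMod.val_le _).trans hpq, by simp [rot]⟩
  · simp at h
  · simp at h
  · exact ⟨(y - x).val, ZMod.val_le _, by simp [rot]⟩

lemma lower (hpq : p ≤ q) (n : ℕ) : ∀ ξ : ℕ → X p q, W ξ (n + 1) ⊆
    ball SS ξ (q * (2 ^ (n + 1) - 1)) := by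
  have ha : ∀ (ξ : ℕ → X p q) (k : ℕ), aa k ξ ∈ ball SS ξ k := fun ξ k => by
    induction k with
    | zero => rw [ball_zero]; exact aa_zero ξ
    | succ k ih =>
      have := ball_step SS ξ (s := aP) (.inl (by simp [SS])) ih
      rwa [show aP (aa k ξ) = aa 1 (aa k ξ) from rfl, aa_add] at this
  have hb : ∀ (ξ : ℕ → X p q) (k : ℕ), bb k ξ ∈ ball SS ξ k := fun ξ k => by
    induction k with
    | zero => rw [ball_zero]; exact bb_zero ξ
    | succ k ih =>
      have := ball_step SS ξ (s := bP) (.inl (by simp [SS])) ih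
      rwa [show bP (bb k ξ) = bb 1 (bb k ξ) from rfl, bb_add] at this
  induction n with
  | zero =>
    intro ξ η h
    obtain ⟨k, h1, h2⟩ := rot_to hpq _ _ (h.1 0)
    have : η = aa k ξ := funext fun i => by
      cases i
      · exact h2.symm
      · exact h.2 _ (by omega)
    exact this ▸ ball_mono _ _ (by simpa using h1) (ha ξ k)
  | succ n ih =>
    intro ξ η h
    obtain ⟨k, h1, h2⟩ := rot_to hpq _ _ (h.1 (n + 1))
    let ζ : ℕ → X p q := fun i => if i < n then Sum.map 0 0 (ξ i) else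
      if i = n then Sum.map 1 1 (ξ i) else ξ i
    have k0 : ∀ i, (ζ i).isLeft = (ξ i).isLeft := fun i => by
      simp only [ζ]
      split_ifs <;> simp
    have k1 : ∀ i, n + 1 ≤ i → ζ i = ξ i := fun i hi => by
      simp only [ζ]
      rw [if_neg (by omega), if_neg (by omega)]
    have k2 : gate ζ n := ⟨fun i hi => by
      simp only [ζ, if_pos hi]
      cases ξ i <;> simp [z], by
      simp only [ζ, lt_irrefl, if_false, if_true]
      cases ξ n <;> simp [o]⟩
    have k3 : η ∈ W (bb k ζ) (n + 1) := by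
      refine ⟨fun i => ?_, fun i hi => ?_⟩
      · rw [h.1, ← k0]
        cases i
        · rfl
        · simp only [bb]
          split_ifs
          · exact (rot_side _ _).symm
          · rfl
      · obtain ⟨j, rfl⟩ : ∃ j, i = j + 1 := ⟨i - 1, by omega⟩
        rcases (Nat.le_of_succ_le_succ hi).eq_or_lt with rfl | hj
        · rw [bb, if_pos k2, k1 _ le_rfl, h2]
        · rw [bb, if_neg fun hg => zo (hg.1 n hj) k2.2, k1 _ hi, h.2 _ (by omega)]
    refine ball_mono _ _ ?_ (ball_trans _ _ (ball_trans _ _ (ih ξ ⟨k0, k1⟩) (hb ζ k)) (ih _ k3))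
    obtain ⟨m, hm⟩ : ∃ m, 2 ^ (n + 1) = m + 1 := ⟨2 ^ (n + 1) - 1, by
      have := Nat.two_pow_pos (n + 1); omega⟩
    rw [pow_succ 2 (n + 1), hm, show (m + 1) * 2 - 1 = 2 * m + 1 by omega, Nat.add_sub_cancel]
    nlinarith

omit [Fact (1 < p)] [Fact (1 < q)] in
lemma W_card (ξ : ℕ → X p q) (n : ℕ) :
    (W ξ n).ncard = ∏ i ∈ Finset.range n, if (ξ i).isLeft then p else q := by
  have e : W ξ n ≃ ((i : Fin n) → {x : X p q // x.isLeft = (ξ i).isLeft}) :=
    { toFun := fun η i => ⟨η.1 i, η.2.1 i⟩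
      invFun := fun f => ⟨fun i => if h : i < n then f ⟨i, h⟩ else ξ i, fun i => by
        dsimp only
        split_ifs with h
        · exact (f ⟨i, h⟩).2
        · rfl, fun i hi => dif_neg (by omega)⟩
      left_inv := fun η => Subtype.ext (funext fun i => by
        dsimp only
        split_ifs with h
        · rfl
        · exact (η.2.2 i (by omega)).symm)
      right_inv := fun f => funext fun i => Subtype.ext (dif_pos i.2) }
  rw [← Nat.card_coe_set_eq, Nat.card_congr e, Nat.card_pi, Finset.prod_range]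
  refine Finset.prod_congr rfl fun i _ => ?_
  cases ξ i
  · exact (Nat.card_congr Equiv.sumIsLeft).trans (Nat.card_zmod p)
  · simp only [Sum.isLeft_inr, Sum.isLeft_eq_false]
    exact (Nat.card_congr Equiv.sumIsRight).trans (Nat.card_zmod q)

end automaton

lemma lim {f : ℕ → ℝ} {α K : ℝ} (h : ∀ᶠ n in atTop, |f n - α * Real.log n| ≤ K) :
    Tendsto (fun n : ℕ => f n / Real.log n) atTop (𝓝 α) := by
  have h1 : Tendsto (fun n : ℕ => Real.log n) atTop atTop :=
    Real.tendsto_log_atTop.comp tendsto_natCast_atTop_atTop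
  rw [← tendsto_sub_nhds_zero_iff]
  refine squeeze_zero_norm' ?_ (h1.const_div_atTop K)
  filter_upwards [h, h1.eventually_gt_atTop 0] with n h2 h3
  rw [Real.norm_eq_abs, div_sub' h3.ne', abs_div, abs_of_pos h3, mul_comm]
  exact div_le_div_of_nonneg_right h2 h3.le

theorem result (α : ℝ) :
    (∃ (X : Type) (_ : Fintype X), 2 ≤ Fintype.card X ∧
      ∃ (L : Subgroup (Equiv.Perm (ℕ → X))) (S : Finset (Equiv.Perm (ℕ → X)))
        (ξ : ℕ → X),
        (∀ g ∈ L, ∀ x : X, ∃ h ∈ L, ∃ y : X, ∀ w, g (cons x w) = cons y (h w)) ∧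
        Subgroup.closure (S : Set (Equiv.Perm (ℕ → X))) = L ∧
        {η | ∃ g ∈ L, g ξ = η}.Infinite ∧
        Tendsto (fun n : ℕ => Real.log (ball S ξ n).ncard / Real.log n) atTop (𝓝 α)) ↔
      1 ≤ α := by
  constructor
  · rintro ⟨X, _, -, L, S, ξ, -, rfl, h1, h2⟩
    refine ge_of_tendsto h2 ?_
    filter_upwards [eventually_ge_atTop 2] with n hn
    have h3 : (1 : ℝ) < n := by exact_mod_cast hn
    rw [one_le_div (Real.log_pos h3)]
    exact Real.log_le_log (by linarith) (by exact_mod_cast (Nat.le_succ n).trans (ball_card S ξ h1 n))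
  intro hα
  obtain ⟨j, hj1, hj2, hj3⟩ : ∃ j : ℕ, 1 ≤ j ∧ (j : ℝ) ≤ α ∧ α < j + 1 :=
    ⟨⌊α⌋₊, Nat.le_floor (by simpa using hα), Nat.floor_le (by linarith), Nat.lt_floor_add_one α⟩
  haveI : Fact (1 < 2 ^ j) := ⟨Nat.one_lt_two_pow (by omega)⟩
  haveI : Fact (1 < 2 ^ (j + 1)) := ⟨Nat.one_lt_two_pow (by omega)⟩
  let F : ℕ → ℕ := fun n => ⌊n * α⌋₊
  have F1 : ∀ n, (F n : ℝ) ≤ n * α := fun n => Nat.floor_le (by positivity)
  have F2 : ∀ n : ℕ, n * α < F n + 1 := fun n => Nat.lt_floor_add_one _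
  let ξ : ℕ → X (2 ^ j) (2 ^ (j + 1)) := fun i =>
    if F (i + 1) = F i + j then .inl 0 else .inr 0
  have hξ : ∀ i, z (ξ i) := fun i => by
    simp only [ξ]
    split_ifs <;> simp [z]
  have hW : ∀ n, (W ξ n).ncard = 2 ^ F n := fun n => by
    rw [W_card]
    induction n with
    | zero => simp [F]
    | succ n ih =>
      rw [Finset.prod_range_succ, ih]
      simp only [ξ]
      by_cases h : F (n + 1) = F n + j
      · simp [h, pow_add]
      · have h1 : F n + j < F (n + 1) + 1 := by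
          have := F1 n
          have := F2 (n + 1)
          have : (F n : ℝ) + j < F (n + 1) + 1 := by push_cast at *; linarith
          exact_mod_cast this
        have h2 : F (n + 1) < F n + j + 2 := by
          have := F2 n
          have := F1 (n + 1)
          have : (F (n + 1) : ℝ) < F n + j + 2 := by push_cast at *; linarith
          exact_mod_cast this
        simp only [if_neg h]
        rw [show F (n + 1) = F n + (j + 1) by omega, pow_add 2 (F n)]
        rfl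
  have hWf : ∀ n, (W ξ n).Finite := fun n => Set.finite_of_ncard_pos (by rw [hW]; positivity)
  have hlow : ∀ n, W ξ (n + 1) ⊆ ball SS ξ (2 ^ (n + j + 2)) := fun n =>
    (lower (Nat.pow_le_pow_right two_pos (Nat.le_succ j)) n ξ).trans (ball_mono _ _ (by
      rw [show n + j + 2 = j + 1 + (n + 1) by omega, pow_add 2 (j + 1)]
      exact Nat.mul_le_mul_left _ (Nat.sub_le _ _)))
  refine ⟨X (2 ^ j) (2 ^ (j + 1)), inferInstance, ?_, _, SS, ξ, selfsim, rfl, fun hf => ?_,
    lim (K := (α * (j + 2) + 1) * Real.log 2) ?_⟩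
  · have := Nat.two_pow_pos j
    have := Nat.two_pow_pos (j + 1)
    simp only [Fintype.card_sum, ZMod.card]
    omega
  · set N := {η | ∃ g ∈ Subgroup.closure (SS (p := 2 ^ j) (q := 2 ^ (j + 1)) : Set (Equiv.Perm
      (ℕ → X (2 ^ j) (2 ^ (j + 1))))), g ξ = η}.ncard
    have h1 : (W ξ (N + 1)).ncard ≤ N := Set.ncard_le_ncard ((hlow N).trans (by
      rintro _ ⟨l, -, h, rfl⟩
      exact ⟨_, Subgroup.list_prod_mem _ fun s hs => (h s hs).elim
        (fun h => Subgroup.subset_closure h)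
        fun h => (Subgroup.inv_mem_iff _).1 (Subgroup.subset_closure h), rfl⟩)) hf
    have h2 : N + 1 ≤ F (N + 1) := Nat.le_floor (le_mul_of_one_le_right (by positivity) hα)
    have h3 := Nat.lt_two_pow_self (n := F (N + 1))
    rw [hW] at h1
    omega
  · filter_upwards [eventually_ge_atTop (2 ^ (j + 2))] with r hr
    have hr0 : r ≠ 0 := by have := Nat.two_pow_pos (j + 2); omega
    obtain ⟨n, hn⟩ := Nat.exists_eq_add_of_le' (Nat.le_log_of_pow_le one_lt_two hr)
    have h1 := Nat.pow_log_le_self 2 hr0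
    have h2 := Nat.lt_pow_succ_log_self one_lt_two r
    rw [hn] at h1 h2
    have h3 := Set.ncard_le_ncard ((hlow n).trans (ball_mono _ _ h1)) (ball_fin _ _ _)
    have h4 := Set.ncard_le_ncard ((ball_mono _ _ h2.le).trans (upper ξ hξ _)) (hWf _)
    rw [hW] at h3 h4
    have l2 : 0 < Real.log 2 := Real.log_pos one_lt_two
    have lg : ∀ a b : ℕ, 2 ^ a ≤ b → a * Real.log 2 ≤ Real.log b := fun a b h => by
      rw [← Real.log_pow]
      exact Real.log_le_log (by positivity) (by exact_mod_cast h)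
    have lg' : ∀ a b : ℕ, b ≠ 0 → b ≤ 2 ^ a → Real.log b ≤ a * Real.log 2 := fun a b h0 h => by
      rw [← Real.log_pow]
      exact Real.log_le_log (by positivity) (by exact_mod_cast h)
    have k1 := lg _ _ h1
    have k2 := lg' _ _ hr0 h2.le
    have k3 := lg _ _ h3
    have k4 := lg' _ _ (by have := Nat.two_pow_pos (F (n + 1)); omega) h4
    have k5 := mul_le_mul_of_nonneg_right (F1 ((n + (j + 2)).succ + 1)) l2.le
    have k6 := mul_le_mul_of_nonneg_right (F2 (n + 1)).le l2.le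
    have k7 := mul_le_mul_of_nonneg_left k1 (show 0 ≤ α by linarith)
    have k8 := mul_le_mul_of_nonneg_left k2 (show 0 ≤ α by linarith)
    have k9 : 0 ≤ α * j * Real.log 2 := by positivity
    push_cast at *
    rw [abs_le]
    constructor <;> nlinarith

end Pool.Agent.Results.MP_e8676d_al.Degrees
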